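import Pool.Agent.Helper56.RZ.GoalsE
import Pool.Agent.Helper57.RZ.T1

/-!
# Packet RZ4-CC (MP_f32c9c_an): comparison of differences with the chart
-/

set_option autoImplicit false

open Set Filter Topology

open scoped ContDiff

namespace Pool.Agent.Helper79.RZ

open Pool.Agent.Helper56.RZ

theorem cc : StmtCC := by
  intro N K M P c z0 hz0 hPc hproj hsum
  obtain ⟨h1, h2, h3⟩ := Pool.Agent.Helper57.RZ.t1 N K M c z0 hz0
  obtain ⟨hM0, hW0⟩ := c.mapsψ z0 hz0
  set x0 := c.ψ z0 with hx0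
  set J := fderiv ℝ c.ψ z0 with hJ
  set D := fderiv ℝ c.φ x0 with hD
  have hPi : ∀ i v, Pi M x0 (P i x0 v) = P i x0 v := by
    intro i v
    have a1 : Pi M x0 * P i x0 = P i x0 := by
      rw [← hsum x0 hM0, add_mul, add_mul, hproj x0 hM0, hproj x0 hM0, hproj x0 hM0]
      fin_cases i <;> simp
    exact DFunLike.congr_fun a1 v
  have hDJ : ∀ v, D (J v) = v := fun v => DFunLike.congr_fun h1 v
  refine ⟨?_, ?_⟩
  · intro i w
    have a2 : J (D (Pi M x0 (P i x0 (J w)))) = Pi M x0 (P i x0 (J w)) :=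
      DFunLike.congr_fun h3 (P i x0 (J w))
    rw [hPi] at a2
    exact a2.symm
  · intro η hη
    set Cf : ℝ := ‖D‖ + 1 with hCf
    have hCf0 : 0 < Cf := by positivity
    have hv : ∀ v, ‖v‖ ≤ Cf * ‖J v‖ := by
      intro v
      calc ‖v‖ = ‖D (J v)‖ := by rw [hDJ]
        _ ≤ ‖D‖ * ‖J v‖ := D.le_opNorm _
        _ ≤ Cf * ‖J v‖ := mul_le_mul_of_nonneg_right (by rw [hCf]; linarith) (norm_nonneg _)
    set R : ℝ := 1 + ∑ i, ‖P i x0‖ with hR
    have hR1 : 1 ≤ R := by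
      rw [hR]
      have : 0 ≤ ∑ i, ‖P i x0‖ := Finset.sum_nonneg fun i _ => norm_nonneg _
      linarith
    have hPR : ∀ i, ‖P i x0‖ + 1 ≤ R := by
      intro i
      have := Finset.single_le_sum (f := fun i => ‖P i x0‖) (fun i _ => norm_nonneg _)
        (Finset.mem_univ i)
      rw [hR]
      linarith
    set ε : ℝ := η / (2 * R * Cf) with hε
    have hε0 : 0 < ε := by positivity
    have hεC : R * (ε * Cf) = η / 2 := by
      rw [hε]; field_simp
    have hεη : ε * Cf ≤ η := by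
      have a3 : ε * Cf ≤ R * (ε * Cf) := le_mul_of_one_le_left (by positivity) hR1
      linarith
    have hcd : ContDiffAt ℝ ∞ c.ψ z0 := c.smoothψ.contDiffAt (c.openV.mem_nhds hz0)
    have hst : HasStrictFDerivAt c.ψ J z0 := hcd.hasStrictFDerivAt (by simp)
    have hs1 : ∀ᶠ p : E N × E N in 𝓝 (z0, z0),
        ‖c.ψ p.1 - c.ψ p.2 - J (p.1 - p.2)‖ ≤ ε * ‖p.1 - p.2‖ :=
      (hasStrictFDerivAt_iff_isLittleO.1 hst).def hε0
    rw [nhds_prod_eq] at hs1
    obtain ⟨U, hU, hUs⟩ := Filter.mem_prod_same_iff.1 hs1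
    have hφc : ContinuousAt c.φ x0 :=
      c.smoothφ.continuousOn.continuousAt (c.openW.mem_nhds hW0)
    have hφ0 : c.φ x0 = z0 := c.left z0 hz0
    have e1 : ∀ᶠ x in 𝓝[M] x0, c.φ x ∈ U :=
      nhdsWithin_le_nhds (hφc (by rw [hφ0]; exact hU))
    have e2 : ∀ᶠ x in 𝓝[M] x0, ∀ i, ‖P i x - P i x0‖ ≤ min 1 (η / 2) := by
      rw [Filter.eventually_all]
      intro i
      have a4 : Tendsto (fun x => ‖P i x - P i x0‖) (𝓝[M] x0) (𝓝 0) := by
        have := ((hPc i x0 hM0).sub_const (P i x0)).norm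
        simpa [ContinuousWithinAt] using this
      exact (a4.eventually_lt_const (show (0 : ℝ) < min 1 (η / 2) by positivity)).mono
        fun x hx => hx.le
    obtain ⟨W, hWo, hWx, hWs⟩ := mem_nhdsWithin.1 (e1.and e2)
    refine ⟨W ∩ c.W, hWo.inter c.openW, ⟨hWx, hW0⟩, inter_subset_right, ?_⟩
    rintro x ⟨hxM, hxW, hxc⟩ y ⟨hyM, hyW, hyc⟩
    obtain ⟨hxU, hxP⟩ := hWs ⟨hxW, hxM⟩
    obtain ⟨hyU, -⟩ := hWs ⟨hyW, hyM⟩
    have hmain := hUs (Set.mk_mem_prod hyU hxU)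
    change ‖c.ψ (c.φ y) - c.ψ (c.φ x) - J (c.φ y - c.φ x)‖ ≤ ε * ‖c.φ y - c.φ x‖ at hmain
    rw [c.right x ⟨hxM, hxc⟩, c.right y ⟨hyM, hyc⟩] at hmain
    set v := c.φ y - c.φ x with hvd
    have hm2 : ‖(y - x) - J v‖ ≤ ε * Cf * ‖J v‖ := by
      refine hmain.trans ?_
      rw [mul_assoc]
      exact mul_le_mul_of_nonneg_left (hv v) hε0.le
    refine ⟨hm2.trans (mul_le_mul_of_nonneg_right hεη (norm_nonneg _)), fun i => ?_⟩
    have hPx : ‖P i x‖ ≤ R := by
      have a5 := hxP i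
      have a6 : ‖P i x‖ ≤ ‖P i x - P i x0‖ + ‖P i x0‖ := norm_le_norm_sub_add _ _
      have a7 := hPR i
      have a8 := min_le_left (1 : ℝ) (η / 2)
      linarith
    have hdec : P i x (y - x) - P i x0 (J v) = P i x ((y - x) - J v) + (P i x - P i x0) (J v) := by
      rw [map_sub (P i x) (y - x) (J v), sub_apply]; abel
    rw [hdec]
    calc ‖P i x ((y - x) - J v) + (P i x - P i x0) (J v)‖
        ≤ ‖P i x ((y - x) - J v)‖ + ‖(P i x - P i x0) (J v)‖ := norm_add_le _ _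
      _ ≤ R * (ε * Cf * ‖J v‖) + η / 2 * ‖J v‖ := by
          apply add_le_add
          · refine ((P i x).le_opNorm _).trans ?_
            exact mul_le_mul hPx hm2 (norm_nonneg _) (by linarith)
          · refine ((P i x - P i x0).le_opNorm _).trans ?_
            exact mul_le_mul_of_nonneg_right ((hxP i).trans (min_le_right _ _)) (norm_nonneg _)
      _ = η * ‖J v‖ := by
          rw [← mul_assoc, hεC]; ring

end Pool.Agent.Helper79.RZ
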