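import Pool.Agent.Helper56.RZ.GoalsC

set_option autoImplicit false

open Set Filter Topology MeasureTheory
open scoped ContDiff ENNReal

namespace Pool.Agent.Helper79.RZ

open Pool.Agent.Helper56.RZ

theorem dv (hT1 : StmtT1) : StmtDV := by
  intro N K M m g g' c c' hSV hg hpres hc hc' z₀ hz₀ z' hz' hgz
  -- the map in the charts
  let V0 : Set (E N) := c.V ∩ (fun z => g (c.ψ z)) ⁻¹' c'.W
  let gh : E N → E N := fun z => c'.φ (g (c.ψ z))
  have hmap : MapsTo c.ψ c.V M := fun z hz => (c.mapsψ z hz).1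
  have hψ1 : ContDiffOn ℝ 1 c.ψ c.V := c.smoothψ.of_le (by exact_mod_cast le_top)
  have hφ1 : ContDiffOn ℝ 1 c'.φ c'.W := c'.smoothφ.of_le (by exact_mod_cast le_top)
  have hgψ : ContDiffOn ℝ 1 (fun z => g (c.ψ z)) c.V := hg.smooth.comp hψ1 hmap
  have hV0 : IsOpen V0 := hgψ.continuousOn.isOpen_inter_preimage c.openV c'.openW
  have hgh : ContDiffOn ℝ 1 gh V0 :=
    hφ1.comp (hgψ.mono inter_subset_left) (fun z hz => hz.2)
  have hinM : ∀ z ∈ V0, g (c.ψ z) ∈ M ∩ c'.W := fun z hz =>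
    ⟨hg.maps (hmap hz.1), hz.2⟩
  have hginj : InjOn g M := by
    intro x hx y hy hxy
    rw [← hg.left x hx, ← hg.left y hy, hxy]
  have hinj : InjOn gh V0 := by
    intro x hx y hy hxy
    have h1 : g (c.ψ x) = g (c.ψ y) := by
      rw [← c'.right _ (hinM x hx), ← c'.right _ (hinM y hy)]
      exact congrArg c'.ψ hxy
    have h2 := hginj (hmap hx.1) (hmap hy.1) h1
    rw [← c.left x hx.1, ← c.left y hy.1, h2]
  have hψinj : InjOn c'.ψ c'.V := by
    intro x hx y hy hxy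
    rw [← c'.left x hx, ← c'.left y hy, hxy]
  -- volume preservation
  have hvol : ∀ A : Set (E N), MeasurableSet A → A ⊆ V0 → volume (gh '' A) = volume A := by
    intro A hA hAV
    have hm1 : MeasurableSet (gh '' A) :=
      hA.image_of_continuousOn_injOn (hgh.continuousOn.mono hAV) (hinj.mono hAV)
    have hsub : gh '' A ⊆ c'.V := by
      rintro _ ⟨a, ha, rfl⟩
      exact c'.mapsφ _ (hinM a (hAV ha))
    have hm2 : MeasurableSet (c'.ψ '' (gh '' A)) :=
      hm1.image_of_continuousOn_injOn (c'.smoothψ.continuousOn.mono hsub) (hψinj.mono hsub)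
    have heq : c'.ψ '' (gh '' A) = g '' (c.ψ '' A) := by
      rw [image_image, image_image]
      refine image_congr fun a ha => ?_
      exact c'.right _ (hinM a (hAV ha))
    have hpre : g ⁻¹' (c'.ψ '' (gh '' A)) ∩ M = c.ψ '' A := by
      rw [heq]
      ext x
      constructor
      · rintro ⟨⟨y, ⟨a, ha, rfl⟩, hy⟩, hxM⟩
        have : c.ψ a = x := hginj (hmap (hAV ha).1) hxM hy
        exact ⟨a, ha, this⟩
      · rintro ⟨a, ha, rfl⟩
        exact ⟨⟨c.ψ a, ⟨a, ha, rfl⟩, rfl⟩, hmap (hAV ha).1⟩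
    rw [← hc' _ hm1 hsub, ← hpres _ hm2, hpre, hc A hA (fun a ha => (hAV ha).1)]
  -- the point
  have hz₀V : z₀ ∈ V0 := by
    refine ⟨hz₀, ?_⟩
    show g (c.ψ z₀) ∈ c'.W
    rw [hgz]
    exact (c'.mapsψ z' hz').2
  -- the derivative
  have hder : fderiv ℝ gh z₀ = (fderiv ℝ c'.φ (c'.ψ z')) ∘L (der M g (c.ψ z₀)) ∘L
      (fderiv ℝ c.ψ z₀) := by
    have h1 : HasFDerivAt c.ψ (fderiv ℝ c.ψ z₀) z₀ :=
      ((hψ1.contDiffAt (c.openV.mem_nhds hz₀)).differentiableAt (by simp)).hasFDerivAt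
    have h2 : HasFDerivWithinAt g (fderivWithin ℝ g M (c.ψ z₀)) M (c.ψ z₀) :=
      ((hg.smooth.differentiableOn (by simp)) _ (hmap hz₀)).hasFDerivWithinAt
    have h3 : HasFDerivAt (fun z => g (c.ψ z))
        ((fderivWithin ℝ g M (c.ψ z₀)) ∘L (fderiv ℝ c.ψ z₀)) z₀ :=
      h2.comp_hasFDerivAt z₀ h1 (by
        filter_upwards [c.openV.mem_nhds hz₀] with z hz
        exact hmap hz)
    have h4 : HasFDerivAt c'.φ (fderiv ℝ c'.φ (g (c.ψ z₀))) (g (c.ψ z₀)) :=
      ((hφ1.contDiffAt (c'.openW.mem_nhds hz₀V.2)).differentiableAt (by simp)).hasFDerivAt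
    have h5 : HasFDerivAt gh ((fderiv ℝ c'.φ (g (c.ψ z₀))) ∘L
        ((fderivWithin ℝ g M (c.ψ z₀)) ∘L (fderiv ℝ c.ψ z₀))) z₀ := h4.comp z₀ h3
    rw [h5.fderiv, hgz]
    have h6 : (der M g (c.ψ z₀)) ∘L (fderiv ℝ c.ψ z₀) =
        (fderivWithin ℝ g M (c.ψ z₀)) ∘L (fderiv ℝ c.ψ z₀) := by
      have h7 := (hT1 N K M c z₀ hz₀).2.1
      unfold der
      ext v
      have h8 := congrArg (fun L => L v) h7
      have h8' : Pi M (c.ψ z₀) (fderiv ℝ c.ψ z₀ v) = fderiv ℝ c.ψ z₀ v := h8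
      show fderivWithin ℝ g M (c.ψ z₀) (Pi M (c.ψ z₀) (fderiv ℝ c.ψ z₀ v)) _ = _
      rw [h8']
      rfl
    rw [h6]
  rw [← hder]
  -- the Jacobian is continuous
  let J : E N → ℝ := fun z => |(fderiv ℝ gh z).det|
  have hJ : ContinuousOn J V0 :=
    (ContinuousLinearMap.continuous_det.comp_continuousOn
      (hgh.continuousOn_fderiv_of_isOpen hV0 le_rfl)).abs
  have hint : ∀ A : Set (E N), MeasurableSet A → A ⊆ V0 →
      ∫⁻ x in A, ENNReal.ofReal (J x) = volume A := by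
    intro A hA hAV
    rw [← hvol A hA hAV]
    refine lintegral_abs_det_fderiv_eq_addHaar_image volume hA (fun x hx => ?_) (hinj.mono hAV)
    exact ((hgh.contDiffAt (hV0.mem_nhds (hAV hx))).differentiableAt
      (by simp)).hasFDerivAt.hasFDerivWithinAt
  show J z₀ = 1
  by_contra hne
  rcases lt_or_gt_of_ne hne with hlt | hgt
  · -- J < 1 near z₀
    obtain ⟨q, hq1, hq2⟩ := exists_between hlt
    have hq0 : 0 < q := (abs_nonneg _).trans_lt hq1
    have hev : ∀ᶠ z in 𝓝 z₀, J z < q :=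
      (hJ.continuousAt (hV0.mem_nhds hz₀V)).eventually_lt_const hq1
    obtain ⟨r, hr, hball⟩ := Metric.mem_nhds_iff.1 (hev.and (hV0.mem_nhds hz₀V))
    have h1 := hint (Metric.ball z₀ r) measurableSet_ball (fun z hz => (hball hz).2)
    have h2 : ∫⁻ x in Metric.ball z₀ r, ENNReal.ofReal (J x) ≤
        ENNReal.ofReal q * volume (Metric.ball z₀ r) := by
      rw [← setLIntegral_const]
      refine setLIntegral_mono measurable_const fun z hz => ?_
      exact ENNReal.ofReal_le_ofReal (hball hz).1.le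
    rw [h1] at h2
    have hpos : 0 < volume (Metric.ball z₀ r) := Metric.measure_ball_pos volume z₀ hr
    have hfin : volume (Metric.ball z₀ r) ≠ ⊤ := measure_ball_lt_top.ne
    have h3 : ENNReal.ofReal q * volume (Metric.ball z₀ r) < volume (Metric.ball z₀ r) := by
      conv_rhs => rw [← one_mul (volume (Metric.ball z₀ r))]
      refine ENNReal.mul_lt_mul_left hpos.ne' hfin ?_
      rw [← ENNReal.ofReal_one]
      exact (ENNReal.ofReal_lt_ofReal_iff one_pos).2 hq2
    exact absurd h2 (not_le.2 h3)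
  · obtain ⟨q, hq1, hq2⟩ := exists_between hgt
    have hev : ∀ᶠ z in 𝓝 z₀, q < J z :=
      (hJ.continuousAt (hV0.mem_nhds hz₀V)).eventually_const_lt hq2
    obtain ⟨r, hr, hball⟩ := Metric.mem_nhds_iff.1 (hev.and (hV0.mem_nhds hz₀V))
    have h1 := hint (Metric.ball z₀ r) measurableSet_ball (fun z hz => (hball hz).2)
    have h2 : ENNReal.ofReal q * volume (Metric.ball z₀ r) ≤
        ∫⁻ x in Metric.ball z₀ r, ENNReal.ofReal (J x) := by
      rw [← setLIntegral_const]
      refine setLIntegral_mono' measurableSet_ball fun z hz => ?_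
      exact ENNReal.ofReal_le_ofReal (hball hz).1.le
    rw [h1] at h2
    have hpos : 0 < volume (Metric.ball z₀ r) := Metric.measure_ball_pos volume z₀ hr
    have hfin : volume (Metric.ball z₀ r) ≠ ⊤ := measure_ball_lt_top.ne
    have h3 : volume (Metric.ball z₀ r) < ENNReal.ofReal q * volume (Metric.ball z₀ r) := by
      conv_lhs => rw [← one_mul (volume (Metric.ball z₀ r))]
      refine ENNReal.mul_lt_mul_left hpos.ne' hfin ?_
      rw [← ENNReal.ofReal_one]
      exact (ENNReal.ofReal_lt_ofReal_iff (one_pos.trans hq1)).2 hq1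
    exact absurd h2 (not_le.2 h3)

end Pool.Agent.Helper79.RZ
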