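import Pool.Agent.Helper56.RZ.GoalsD
import Pool.Agent.Helper39.RZ.G5

/-!
# Project RZ3 (MP_f32c9c_an), packet GA5
-/

set_option autoImplicit false

open Set Filter Topology MeasureTheory

open scoped ContDiff

namespace Pool.Agent.Helper79.RZ

open Pool.Agent.Helper56.RZ Pool.Agent.Helper39.RZ

theorem ga5 (hG1 : StmtGA1) (hG2 : StmtGA2) (hT2 : StmtT2) (hT4 : StmtT4) : StmtGA5 := by
  intro N K M c p hPi hp d a ha z0 hz0
  obtain ⟨C, ρ0, r0, hC, hρ0, hρ01, hr0, h2⟩ := hG2 N K 1 M c p hp d a ha z0 hz0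
  have hCpos : 0 < C := by linarith
  refine ⟨C, ρ0, r0, hC, hρ0, hρ01, hr0, fun y hy ρ t hρ e1 hta => ?_⟩
  have e3 : ρ ≤ 1 := e1.trans hρ01
  have htb : |-t| ≤ 1 := by rw [abs_neg]; exact hta
  obtain ⟨hfit, w, hw, hwx, hwk⟩ := h2 y hy ρ t hρ e1 hta
  obtain ⟨_, w', hw', hwx', hwk'⟩ := h2 y hy ρ (-t) hρ e1 htb
  obtain ⟨g1, _, g3, _⟩ := hG1 N K M c p hp d a ha y ρ hρ hfit t
  have hdiff : IsDiffeo 1 M (hMa c d a y ρ t) (hMa c d a y ρ (-t)) :=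
    ⟨g1.maps, g1.maps', g1.left, g1.right, g1.smooth.of_le (by simp),
      g1.smooth'.of_le (by simp)⟩
  obtain ⟨H, hH⟩ := hT4 K M _ _ hPi hdiff
  have ht0 : 0 ≤ C * |t| := by positivity
  have b0 : C * |t| * ρ * (ρ⁻¹) ^ 0 ≤ C * |t| := by
    rw [pow_zero, mul_one]
    exact mul_le_of_le_one_right ht0 e3
  have b1 : C * |t| * ρ * (ρ⁻¹) ^ 1 ≤ C * |t| := by
    rw [pow_one, mul_assoc, mul_inv_cancel₀ hρ.ne', mul_one]
  have s1 : ∀ x ∈ M, dist (hMa c d a y ρ t x) x ≤ C * |t| ∧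
      ‖der M (hMa c d a y ρ t) x - Pi M x‖ ≤ C * |t| :=
    fun x hx => small_of hT2 hw hwx (fun y => (hwk 0 (by omega) y).trans b0)
      (fun y => (hwk 1 (by omega) y).trans b1) hx
  have s2 : ∀ x ∈ M, dist (hMa c d a y ρ (-t) x) x ≤ C * |t| ∧
      ‖der M (hMa c d a y ρ (-t)) x - Pi M x‖ ≤ C * |t| :=
    fun x hx => small_of hT2 hw' hwx'
      (fun y => (hwk' 0 (by omega) y).trans (by rw [abs_neg]; exact b0))
      (fun y => (hwk' 1 (by omega) y).trans (by rw [abs_neg]; exact b1)) hx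
  have n1 : Near H (C * |t|) := by
    intro x
    refine ⟨?_, ?_, ?_⟩
    · rw [Subtype.dist_eq, hH.rf]
      exact (s1 x x.2).1
    · rw [hH.rA, hH.rT]
      exact (s1 x x.2).2
    · rw [hH.rB, hH.rT]
      exact (s2 x x.2).2
  have n2 : Near H.inv (C * |t|) := by
    intro x
    refine ⟨?_, ?_, ?_⟩
    · change dist (H.f.symm x) x ≤ C * |t|
      rw [Subtype.dist_eq, hH.rf']
      exact (s2 x x.2).1
    · change ‖H.B x - H.T x‖ ≤ C * |t|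
      rw [hH.rB, hH.rT]
      exact (s2 x x.2).2
    · change ‖H.A x - H.T x‖ ≤ C * |t|
      rw [hH.rA, hH.rT]
      exact (s1 x x.2).2
  refine ⟨H, hH, n1, n2, fun x hx => ?_⟩
  obtain ⟨g4, g5⟩ := g3 x x.2 hx
  refine ⟨?_, ?_⟩
  · apply Subtype.ext
    rw [hH.rf, g4]
  · rw [hH.rA, hH.rT, g5]

end Pool.Agent.Helper79.RZ
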